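import Pool.Agent.Helper98.TA.Basic
import Pool.Agent.Helper96.TWR.DNS

/-!
Row TEX of the sheet TA: functions in an extension are approximated by products.
-/

set_option linter.unusedSectionVars false

open MeasureTheory Filter Topology Finset
open scoped ComplexConjugate

namespace Pool.Agent.Helper99.TA

open Pool.Agent.Helper98.TW (SA jo bo cm AM UF BF Sys Lm IA LQ Inc sg Grp SM Sat al ST_DNS)
open Pool.Agent.Helper98.TA

section

variable {Ω : Type} [m0 : MeasurableSpace Ω] {μ : Measure Ω}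

theorem lp_norm_sq (f : Lp ℂ 2 μ) : ‖f‖ ^ 2 = ∫ x, ‖f x‖ ^ 2 ∂μ := by
  have h1 := inner_self_eq_norm_sq (𝕜 := ℂ) f
  rw [← h1, L2.inner_def]
  have h2 := integral_re (𝕜 := ℂ) (L2.integrable_inner (𝕜 := ℂ) f f)
  have h3 : RCLike.re (∫ x, inner ℂ (f x) (f x) ∂μ) = ∫ x, RCLike.re (inner ℂ (f x) (f x)) ∂μ :=
    h2.symm
  rw [h3]
  refine integral_congr_ae (Eventually.of_forall fun x => ?_)
  exact inner_self_eq_norm_sq (𝕜 := ℂ) (f x)

/-- the products -/
def Pr (μ : Measure Ω) (E : SA Ω) (Φ : Set (Ω → ℂ)) : Set (Lp ℂ 2 μ) :=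
  {g | ∃ φ ∈ Φ, ∃ F : Ω → ℂ, BF F ∧ AM μ E F ∧ g =ᵐ[μ] fun x => φ x * F x}

theorem memLp_prod [IsProbabilityMeasure μ] {φ F : Ω → ℂ} (hφ : UF μ φ) (hF : BF F) :
    MemLp (fun x => φ x * F x) 2 μ := by
  obtain ⟨B, hB⟩ := hF.2
  refine MemLp.of_bound (hφ.1.mul hF.1).aestronglyMeasurable B ?_
  filter_upwards [hφ.2] with x hx
  rw [norm_mul, hx, one_mul]
  exact hB x

/-- the closed span of the products contains all functions which are measurable for the extension -/
theorem mem_closure_span [IsProbabilityMeasure μ] (hDNS : ST_DNS) {E : SA Ω} {Φ : Set (Ω → ℂ)}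
    (hE : Lm E) (hΦ : Grp μ Φ) (g : Lp ℂ 2 μ) (hg : AM μ (jo E (sg Φ)) g) :
    g ∈ (Submodule.span ℂ (Pr μ E Φ)).topologicalClosure := by
  set K := (Submodule.span ℂ (Pr μ E Φ)).topologicalClosure with hK
  have hKc : IsClosed (K : Set (Lp ℂ 2 μ)) := Submodule.isClosed_topologicalClosure _
  have : CompleteSpace K := hKc.completeSpace_coe
  have hlm : Lm (jo E (sg Φ)) :=
    Pool.Agent.Helper96.TWR.lm_jo hE fun φ hφ => (hΦ.uf φ hφ).1
  set h : Lp ℂ 2 μ := g - K.starProjection g with hh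
  have hperp : h ∈ Kᗮ := Submodule.sub_starProjection_mem_orthogonal g
  -- measurability
  have hP : ∀ w ∈ K, AM μ (jo E (sg Φ)) w := by
    have hcl : IsClosed {f : Lp ℂ 2 μ | AEStronglyMeasurable[jo E (sg Φ)] f μ} :=
      isClosed_aestronglyMeasurable hlm
    have hsub : (Submodule.span ℂ (Pr μ E Φ) : Set (Lp ℂ 2 μ)) ⊆
        {f : Lp ℂ 2 μ | AEStronglyMeasurable[jo E (sg Φ)] f μ} := by
      intro w hw
      refine Submodule.span_induction (p := fun (w : Lp ℂ 2 μ) _ =>
        AEStronglyMeasurable[jo E (sg Φ)] w μ) ?_ ?_ ?_ ?_ hw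
      · rintro w ⟨φ, hφ, F, hF, hFE, hw⟩
        refine AEStronglyMeasurable.congr ?_ hw.symm
        exact AEStronglyMeasurable.mul (Pool.Agent.Helper98.TW.am_jo_right
          (Pool.Agent.Helper98.TW.am_sg hφ)) (Pool.Agent.Helper98.TW.am_jo_left hFE)
      · refine AEStronglyMeasurable.congr (aestronglyMeasurable_const (b := (0 : ℂ))) ?_
        exact (Lp.coeFn_zero ℂ 2 μ).symm
      · intro a b _ _ ha hb
        exact (ha.add hb).congr (Lp.coeFn_add a b).symm
      · intro c a _ ha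
        exact (ha.const_smul c).congr (Lp.coeFn_smul c a).symm
    intro w hw
    have : w ∈ closure (Submodule.span ℂ (Pr μ E Φ) : Set (Lp ℂ 2 μ)) := hw
    exact (closure_minimal hsub hcl) this
  have hhm : AM μ (jo E (sg Φ)) h := by
    have h1 : AM μ (jo E (sg Φ)) (K.starProjection g) :=
      hP _ (Submodule.starProjection_apply_mem K g)
    exact AEStronglyMeasurable.congr (AEStronglyMeasurable.sub hg h1)
      (Lp.coeFn_sub g (K.starProjection g)).symm
  have hhi : Integrable h μ := (Lp.memLp h).integrable (by norm_num)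
  -- orthogonality
  have hort : ∀ φ ∈ Φ, μ[fun x => h x * conj (φ x)|E] =ᵐ[μ] 0 := by
    intro φ hφ
    have hu := hΦ.uf φ hφ
    have hint : Integrable (fun x => h x * conj (φ x)) μ :=
      Pool.Agent.Helper96.TWR.int_mul hhi hu
    refine (ae_eq_condExp_of_forall_setIntegral_eq hE hint (g := 0) ?_ ?_ ?_).symm
    · intro s _ _
      exact integrableOn_zero
    · intro s hs _
      have hs' : MeasurableSet s := hE s hs
      set F : Ω → ℂ := s.indicator fun _ => 1 with hF
      have hBF : BF F := by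
        refine ⟨measurable_const.indicator hs', 1, fun x => ?_⟩
        by_cases hx : x ∈ s <;> simp [hF, hx]
      have hFE : AM μ E F := by
        have : StronglyMeasurable[E] F :=
          StronglyMeasurable.indicator (stronglyMeasurable_const) hs
        exact this.aestronglyMeasurable
      have hmem := memLp_prod (μ := μ) hu hBF
      have hin : hmem.toLp (fun x => φ x * F x) ∈ Pr μ E Φ :=
        ⟨φ, hφ, F, hBF, hFE, hmem.coeFn_toLp⟩
      have hinK : hmem.toLp (fun x => φ x * F x) ∈ K :=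
        Submodule.le_topologicalClosure _ (Submodule.subset_span hin)
      have h0 := (Submodule.mem_orthogonal K h).1 hperp _ hinK
      rw [L2.inner_def] at h0
      have h1 : ∫ x, (inner ℂ ((hmem.toLp (fun x => φ x * F x)) x) (h x) : ℂ) ∂μ =
          ∫ x in s, h x * conj (φ x) ∂μ := by
        rw [← integral_indicator hs']
        refine integral_congr_ae ?_
        filter_upwards [hmem.coeFn_toLp] with x hx
        rw [hx, RCLike.inner_apply]
        by_cases hxs : x ∈ s
        · simp [hF, hxs]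
        · simp [hF, hxs]
      rw [h1] at h0
      rw [h0]
      simp
    · exact aestronglyMeasurable_const
  have hz : h =ᵐ[μ] 0 := hDNS Ω μ E Φ h hE hΦ hhi hhm hort
  have hz' : h = 0 := (Lp.eq_zero_iff_ae_eq_zero).2 hz
  have : g = K.starProjection g := by
    rw [hh] at hz'
    exact sub_eq_zero.1 hz'
  rw [this]
  exact Submodule.starProjection_apply_mem K g

end

theorem st_TEX (hDNS : ST_DNS) : ST_TEX := by
  intro Ω m0 μ _ E Φ G ε hE hΦ hG hGm hε
  have hg : AM μ (jo E (sg Φ)) (hG.toLp G) :=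
    AEStronglyMeasurable.congr hGm hG.coeFn_toLp.symm
  have hcl := mem_closure_span hDNS hE hΦ (hG.toLp G) hg
  have hcl' : hG.toLp G ∈ closure (Submodule.span ℂ (Pr μ E Φ) : Set (Lp ℂ 2 μ)) := hcl
  obtain ⟨w, hw, hd⟩ := Metric.mem_closure_iff.1 hcl' (√ε) (Real.sqrt_pos.2 hε)
  obtain ⟨m, c, v, hv⟩ := Submodule.mem_span_set'.1 hw
  have hch : ∀ i : Fin m, ∃ φ ∈ Φ, ∃ F : Ω → ℂ, BF F ∧ AM μ E F ∧
      ((v i : Lp ℂ 2 μ) : Ω → ℂ) =ᵐ[μ] fun x => φ x * F x := fun i => (v i).2
  choose φ hφ F hBF hFE hvF using hch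
  refine ⟨m, φ, fun i x => c i * F i x, hφ, fun i => ⟨?_, ?_⟩, ?_⟩
  · obtain ⟨hm, B, hB⟩ := hBF i
    refine ⟨hm.const_mul _, ‖c i‖ * B, fun x => ?_⟩
    rw [norm_mul]
    exact mul_le_mul_of_nonneg_left (hB x) (norm_nonneg _)
  · exact AEStronglyMeasurable.const_mul (hFE i) (c i)
  · have h1 : ∫ x, ‖G x - ∑ i, φ i x * (c i * F i x)‖ ^ 2 ∂μ = ‖hG.toLp G - w‖ ^ 2 := by
      rw [lp_norm_sq]
      refine integral_congr_ae ?_
      have hsum : (w : Ω → ℂ) =ᵐ[μ] fun x => ∑ i, φ i x * (c i * F i x) := by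
        rw [← hv]
        have h2 : ((∑ i, c i • (v i : Lp ℂ 2 μ) : Lp ℂ 2 μ) : Ω → ℂ) =ᵐ[μ]
            fun x => ∑ i, (c i • (v i : Lp ℂ 2 μ) : Lp ℂ 2 μ) x := by
          have := Lp.coeFn_finsetSum (μ := μ) (p := 2) Finset.univ
            (fun i => (c i • (v i : Lp ℂ 2 μ) : Lp ℂ 2 μ))
          filter_upwards [this] with x hx
          rw [hx]
          simp
        have h3 : ∀ᵐ x ∂μ, ∀ i : Fin m, (c i • (v i : Lp ℂ 2 μ) : Lp ℂ 2 μ) x =
            c i * (φ i x * F i x) := by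
          rw [ae_all_iff]
          intro i
          filter_upwards [Lp.coeFn_smul (c i) (v i : Lp ℂ 2 μ), hvF i] with x hx hx'
          rw [hx, Pi.smul_apply, hx', smul_eq_mul]
        filter_upwards [h2, h3] with x hx hx'
        rw [hx]
        refine Finset.sum_congr rfl fun i _ => ?_
        rw [hx' i]
        ring
      filter_upwards [Lp.coeFn_sub (hG.toLp G) w, hG.coeFn_toLp, hsum] with x hx hx' hx''
      rw [hx, Pi.sub_apply, hx', hx'']
    rw [h1]
    rw [dist_eq_norm] at hd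
    have h2 : ‖hG.toLp G - w‖ ^ 2 ≤ √ε ^ 2 := by
      exact pow_le_pow_left₀ (norm_nonneg _) hd.le 2
    rwa [Real.sq_sqrt hε.le] at h2

end Pool.Agent.Helper99.TA
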