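import Pool.Agent.Helper98.TA.Stmts
import Pool.Agent.Helper73.TWR.IAJ

/-!
Row BSP of the sheet TA: unions of chains.
-/

set_option linter.unusedSectionVars false

open MeasureTheory Filter Topology Finset
open scoped ComplexConjugate

namespace Pool.Agent.Helper99.TA

open Pool.Agent.Helper98.TW (SA jo bo cm AM UF BF Sys Lm IA LQ Inc sg Grp SM Sat al)
open Pool.Agent.Helper98.TA
open Pool.Agent.Helper73.TWR (am_comp_of ia_le qmp)

/-- the conditional expectation vanishes if it vanishes for the members of a chain -/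
theorem ce_zero_of_chain {X : Type} [m0 : MeasurableSpace X] (κ : Measure X)
    [IsProbabilityMeasure κ] (P : Set (MeasurableSpace X)) (hne : P.Nonempty)
    (hch : ∀ D ∈ P, ∀ D' ∈ P, D ≤ D' ∨ D' ≤ D) (hle : ∀ D ∈ P, D ≤ m0) (F : X → ℂ)
    (hF : Integrable F κ) (h : ∀ D ∈ P, κ[F|D] =ᵐ[κ] 0) : κ[F|sSup P] =ᵐ[κ] 0 := by
  have hm : sSup P ≤ m0 := sSup_le hle
  have hset : ∀ D ∈ P, ∀ s, MeasurableSet[D] s → ∫ x in s, F x ∂κ = 0 := by
    intro D hD s hs
    rw [← setIntegral_condExp (hle D hD) hF hs]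
    rw [setIntegral_congr_ae ((hle D hD) s hs) ((h D hD).mono fun x hx _ => hx)]
    simp
  have hgen : sSup P = MeasurableSpace.generateFrom {s | ∃ D ∈ P, MeasurableSet[D] s} := by
    apply le_antisymm
    · refine sSup_le fun D hD s hs => ?_
      exact MeasurableSpace.measurableSet_generateFrom ⟨D, hD, hs⟩
    · refine MeasurableSpace.generateFrom_le ?_
      rintro s ⟨D, hD, hs⟩
      exact (le_sSup hD) s hs
  have hpi : IsPiSystem {s | ∃ D ∈ P, MeasurableSet[D] s} := by
    rintro s ⟨D, hD, hs⟩ t ⟨D', hD', ht⟩ _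
    rcases hch D hD D' hD' with h1 | h1
    · exact ⟨D', hD', MeasurableSet.inter (h1 s hs) ht⟩
    · exact ⟨D, hD, MeasurableSet.inter hs (h1 t ht)⟩
  obtain ⟨D0, hD0⟩ := hne
  have hall : ∀ s, MeasurableSet[sSup P] s → ∫ x in s, F x ∂κ = 0 := by
    intro s hs
    induction s, hs using MeasurableSpace.induction_on_inter hgen hpi with
    | empty => simp
    | basic t ht =>
      obtain ⟨D, hD, ht⟩ := ht
      exact hset D hD t ht
    | compl t ht ih =>
      have h1 := setIntegral_compl (hm t ht) hF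
      have h2 : ∫ x, F x ∂κ = 0 := by
        have := hset D0 hD0 Set.univ MeasurableSet.univ
        simpa using this
      rw [h1, ih, h2, sub_zero]
    | iUnion f hd hf ih =>
      rw [integral_iUnion (fun i => hm _ (hf i)) hd hF.integrableOn]
      simp [ih]
  refine (ae_eq_condExp_of_forall_setIntegral_eq hm hF (g := 0) ?_ ?_ ?_).symm
  · intro s _ _
    exact integrableOn_zero
  · intro s hs _
    rw [hall s hs]
    simp
  · exact aestronglyMeasurable_const

theorem st_BSP : ST_BSP := by
  intro Ω m0 μ _ S S' c hS hne hch hIA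
  refine ⟨(sSup c : MeasurableSpace Ω), ?_, ?_, ?_⟩
  · refine ⟨sSup_le (α := MeasurableSpace Ω) fun D hD => (hIA D hD).1, fun f hf => ⟨?_, ?_⟩⟩
    · refine am_comp_of (qmp hS.mp) (sSup_le (α := MeasurableSpace Ω) fun (D : SA Ω) hD => ?_) hf
      exact ia_le (m0 := m0) (𝒜 := D) (fun f hf => ((hIA D hD).2 f hf).1)
        (le_sSup (α := MeasurableSpace Ω) hD)
    · refine am_comp_of (qmp hS.mp') (sSup_le (α := MeasurableSpace Ω) fun (D : SA Ω) hD => ?_) hf
      exact ia_le (m0 := m0) (𝒜 := D) (fun f hf => ((hIA D hD).2 f hf).2)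
        (le_sSup (α := MeasurableSpace Ω) hD)
  · intro D hD
    exact le_sSup (α := MeasurableSpace Ω) hD
  · intro κ _ F _ hF h0
    have hB : @LE.le (MeasurableSpace (Ω × Ω)) _ (B2 Ω) inferInstance :=
      measurable_snd.comap_le
    have hJ : ∀ D ∈ c, @LE.le (MeasurableSpace (Ω × Ω)) _ (J1 D) inferInstance := by
      intro D hD
      exact (MeasurableSpace.comap_mono (hIA D hD).1).trans measurable_fst.comap_le
    have hFi : Integrable F κ := by
      obtain ⟨B, hB⟩ := hF.2
      exact Integrable.of_bound hF.1.aestronglyMeasurable B (Eventually.of_forall hB)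
    let P : Set (MeasurableSpace (Ω × Ω)) := (fun D : SA Ω => jo (B2 Ω) (J1 D)) '' c
    have key := ce_zero_of_chain κ P (hne.image _) ?_ ?_ F hFi ?_
    · have heq : sSup P = @jo (Ω × Ω) (B2 Ω) (J1 (sSup c : MeasurableSpace Ω)) := by
        apply le_antisymm (α := MeasurableSpace (Ω × Ω))
        · refine sSup_le ?_
          rintro _ ⟨D, hD, rfl⟩
          exact sup_le_sup (α := MeasurableSpace (Ω × Ω)) le_rfl
            (MeasurableSpace.comap_mono (le_sSup (α := MeasurableSpace Ω) hD))
        · refine sup_le (α := MeasurableSpace (Ω × Ω)) ?_ ?_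
          · obtain ⟨D, hD⟩ := hne
            exact le_trans (le_sup_left (α := MeasurableSpace (Ω × Ω)))
              (le_sSup (α := MeasurableSpace (Ω × Ω)) ⟨D, hD, rfl⟩)
          · show MeasurableSpace.comap Prod.fst (sSup c : MeasurableSpace Ω) ≤ _
            rw [sSup_eq_iSup, MeasurableSpace.comap_iSup]
            refine iSup_le fun D => ?_
            rw [MeasurableSpace.comap_iSup]
            refine iSup_le fun hD => ?_
            exact le_trans (le_sup_right (α := MeasurableSpace (Ω × Ω)))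
              (le_sSup (α := MeasurableSpace (Ω × Ω)) ⟨D, hD, rfl⟩)
      rw [heq] at key
      exact key
    · rintro _ ⟨D, hD, rfl⟩ _ ⟨D', hD', rfl⟩
      rcases hch D hD D' hD' with h1 | h1
      · exact Or.inl (sup_le_sup (α := MeasurableSpace (Ω × Ω)) le_rfl
          (MeasurableSpace.comap_mono h1))
      · exact Or.inr (sup_le_sup (α := MeasurableSpace (Ω × Ω)) le_rfl
          (MeasurableSpace.comap_mono h1))
    · rintro _ ⟨D, hD, rfl⟩
      exact sup_le (α := MeasurableSpace (Ω × Ω)) hB (hJ D hD)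
    · rintro _ ⟨D, hD, rfl⟩
      exact h0 D hD

end Pool.Agent.Helper99.TA
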