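import Pool.Agent.Helper98.TA.Basic
import Pool.Agent.Helper73.TWR.Tool

/-!
Row ROR of the sheet TA: orthogonality.
-/

set_option linter.unusedSectionVars false

open MeasureTheory Filter Topology Finset
open scoped ComplexConjugate

namespace Pool.Agent.Helper99.TA

open Pool.Agent.Helper98.TW
open Pool.Agent.Helper98.TA
open Pool.Agent.Helper40.TWM (St)
open Pool.Agent.Helper98.GY (JY JJY)
open Pool.Agent.Helper73.TWR (ce_am ce_int ce_bdd ce_bf ce_tower ce_congr ce_zero_lq ce_mul_zero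
  bf_int bf_mul uf_int uf_bdd int_bdd exists_bf pull int_zero_of_ce)

/-- the conditional expectation on the second coordinate of a function in a class -/
theorem ror_one (hRG1 : ST_RG1) (hLZ : ST_LZ) (hDNS : ST_DNS) (hPFC : ST_PFC)
    {Ω : Type} [m0 : MeasurableSpace Ω] {μ : Measure Ω} [IsProbabilityMeasure μ]
    {S S' : Ω → Ω} {E : SA Ω} {p q : ℕ} {κ : Measure (Ω × Ω)} (hSt : St μ S S')
    (hE : IA μ E S S') (hR : Ri μ S (fr μ S E)) (hRE : Ri μ S E) (hp : 1 ≤ p) (hq : 1 ≤ q)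
    (hJ : JY S μ p q κ) {ψ F : Ω → ℂ} (hψ : UF μ ψ) (hi : Inc μ E S ψ) (hF : BF F)
    (hFE : AM μ E (fun x => conj (ψ x) * F x)) :
    κ[fun z => F z.1|B2 Ω] =ᵐ[κ] 0 ∨ ∃ φ : Ω → ℂ, UF μ φ ∧ Inc μ E S φ ∧
      AM κ (jo (J1 E) (J2 E)) (fun z => ψ z.1 * conj (φ z.2)) ∧
      AM κ (J2 E) (fun z => (κ[fun z => F z.1|B2 Ω]) z * conj (φ z.2)) := by
  have hP : IsProbabilityMeasure κ := hJ.prob
  have hS := St.s1 hSt
  have hs := sys_jy hS hJ
  have h1 := ia_J1 hS hJ hE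
  have h2 := ia_J2 hS hJ hE
  have h12 := Pool.Agent.Helper98.TA.ia_jo hs h1 h2
  have hlB : Lm (B2 Ω) := lm_B2
  have hl2 : Lm (J2 E) := lm_J2 hE.1
  have hq2 : LQ κ (J2 E) (B2 Ω) := lq_of_le (J2_le_B2 hE.1)
  have hF1 : BF (fun z : Ω × Ω => F z.1) := by
    obtain ⟨hm, B, hB⟩ := hF
    exact ⟨hm.comp measurable_fst, B, fun z => hB z.1⟩
  have hF1i : Integrable (fun z : Ω × Ω => F z.1) κ := bf_int hF1
  obtain ⟨hFm, B, hB⟩ := id hF
  have hψ1 : UF κ (fun z : Ω × Ω => ψ z.1) := uf_J1 hJ hψ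
  have hinc1 : Inc κ (J1 E) (Prod.map S^[p] S^[q]) (fun z => ψ z.1) :=
    inc_J1 hPFC hS hJ hE.1 hψ (inc_iter hE hS hψ hi p)
  -- the function `c = conj ψ F` of the first coordinate
  have hc : AM κ (J1 E) (fun z : Ω × Ω => conj (ψ z.1) * F z.1) := by
    refine (am_J1 hPFC hJ hE.1 (F := fun x => conj (ψ x) * F x) ?_).2 hFE
    exact (hψ.conj.1.mul hFm).aestronglyMeasurable
  have hc12 : AM κ (jo (J1 E) (J2 E)) (fun z : Ω × Ω => conj (ψ z.1) * F z.1) := am_jo_left hc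
  -- facts for a function of the second coordinate
  have key : ∀ φ : Ω → ℂ, UF μ φ → 
      ((fun z => (κ[fun z => F z.1|B2 Ω]) z * conj (φ z.2)) =ᵐ[κ]
        κ[fun z => F z.1 * conj (φ z.2)|B2 Ω]) ∧
      Integrable (fun z : Ω × Ω => F z.1 * conj (φ z.2)) κ ∧
      (∀ᵐ z ∂κ, ‖F z.1 * conj (φ z.2)‖ ≤ B) ∧
      ((fun z : Ω × Ω => F z.1 * conj (φ z.2)) =ᵐ[κ]
        fun z => (conj (ψ z.1) * F z.1) * (ψ z.1 * conj (φ z.2))) := by
    intro φ hφ
    have hφ2 : UF κ (fun z : Ω × Ω => φ z.2) := uf_J2 hJ hφ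
    have hφB : AM κ (B2 Ω) (fun z : Ω × Ω => conj (φ z.2)) := by
      have hm : Measurable[B2 Ω] (fun z : Ω × Ω => conj (φ z.2)) := by
        have h3 : Measurable (fun x : Ω => conj (φ x)) := hφ.conj.1
        have h4 : Measurable[B2 Ω] (Prod.snd : Ω × Ω → Ω) := comap_measurable _
        exact h3.comp h4
      exact am_of hm
    have hbd : ∀ᵐ z ∂κ, ‖F z.1 * conj (φ z.2)‖ ≤ B := by
      filter_upwards [hφ2.2] with z hz
      rw [norm_mul, Complex.norm_conj, hz, mul_one]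
      exact hB z.1
    have hint : Integrable (fun z : Ω × Ω => F z.1 * conj (φ z.2)) κ :=
      Integrable.of_bound (hF1.1.mul hφ2.conj.1).aestronglyMeasurable B hbd
    refine ⟨?_, hint, hbd, ?_⟩
    · have h3 : κ[fun z : Ω × Ω => conj (φ z.2) * F z.1|B2 Ω] =ᵐ[κ]
          fun z => conj (φ z.2) * (κ[fun z => F z.1|B2 Ω]) z := by
        refine pull hφB ?_ hF1i
        exact hint.congr (Eventually.of_forall fun z => mul_comm _ _)
      have h4 : κ[fun z : Ω × Ω => F z.1 * conj (φ z.2)|B2 Ω] =ᵐ[κ]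
          κ[fun z : Ω × Ω => conj (φ z.2) * F z.1|B2 Ω] :=
        ce_congr (Eventually.of_forall fun z => mul_comm _ _)
      filter_upwards [h3, h4] with z h3 h4
      rw [h4, h3, mul_comm]
    · filter_upwards [hψ1.mul_conj] with z hz
      linear_combination -(F z.1 * conj (φ z.2)) * hz
  by_cases hex : ∃ φ : Ω → ℂ, UF μ φ ∧ Inc μ E S φ ∧
      AM κ (jo (J1 E) (J2 E)) (fun z => ψ z.1 * conj (φ z.2))
  · right
    obtain ⟨φ, hφ, hφi, hw⟩ := hex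
    refine ⟨φ, hφ, hφi, hw, ?_⟩
    obtain ⟨k1, k2, k3, k4⟩ := key φ hφ
    have hwm : AM κ (jo (J1 E) (J2 E)) (fun z : Ω × Ω => F z.1 * conj (φ z.2)) :=
      am_congr (am_mul hc12 hw) k4.symm
    obtain ⟨w, hwB, hwe⟩ := exists_bf k2.aestronglyMeasurable k3
    have h3 := (hRG1 Ω μ S S' E p q κ hSt hE hRE hp hq hJ).2 w hwB (am_congr hwm hwe.symm)
    have h4 : (fun z => (κ[fun z => F z.1|B2 Ω]) z * conj (φ z.2)) =ᵐ[κ] κ[w|J2 E] :=
      k1.trans ((ce_congr hwe.symm).trans h3)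
    exact am_congr (ce_am (𝒜 := J2 E) (F := w)) h4.symm
  · left
    -- the function belongs to the extension of `J2 E`
    have hfr : IA μ (fr μ S E) S S' := ia_fr hS hE
    have hFfr : AM μ (fr μ S E) F := by
      refine am_congr (am_mul (am_fr hψ hi) (lq_fr _ hFE)) ?_
      filter_upwards [hψ.mul_conj] with x hx
      linear_combination (F x) * hx
    have hg1 := (hRG1 Ω μ S S' (fr μ S E) p q κ hSt hfr hR hp hq hJ).1 F hF hFfr
    have hg2 : AM κ (J2 (fr μ S E)) (κ[fun z => F z.1|B2 Ω]) :=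
      am_congr (ce_am (𝒜 := J2 (fr μ S E)) (F := fun z : Ω × Ω => F z.1)) hg1.symm
    have hcm : J2 (fr μ S E) = jo (J2 E)
        (sg {ψ | ∃ φ ∈ Ga μ S E, ψ = fun z : Ω × Ω => φ z.2}) := cm_sg Prod.snd E (Ga μ S E)
    rw [hcm] at hg2
    refine hDNS (Ω × Ω) κ (J2 E) _ _ hl2 (grp_comp (jy_mp2 hJ) (grp_Ga (μ := μ) (S := S) (E := E)))
      ce_int hg2 ?_
    rintro _ ⟨φ, ⟨hφ, hφi⟩, rfl⟩
    obtain ⟨k1, k2, k3, k4⟩ := key φ hφ
    -- the function `w`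
    have hφ2 : UF κ (fun z : Ω × Ω => φ z.2) := uf_J2 hJ hφ
    have hwu : UF κ (fun z : Ω × Ω => ψ z.1 * conj (φ z.2)) := hψ1.mul hφ2.conj
    have hwi : Inc κ (jo (J1 E) (J2 E)) (Prod.map S^[p] S^[q])
        (fun z : Ω × Ω => ψ z.1 * conj (φ z.2)) := by
      refine Inc.mul (Inc.lq lq_jo_left hinc1) (Inc.conj (Inc.lq lq_jo_right ?_))
      exact inc_J2 hPFC hS hJ hE.1 hφ (inc_iter hE hS hφ hφi q)
    have hw0 : κ[fun z : Ω × Ω => ψ z.1 * conj (φ z.2)|jo (J1 E) (J2 E)] =ᵐ[κ] 0 := by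
      rcases hLZ (Ω × Ω) κ _ _ (jo (J1 E) (J2 E)) _ hs hJ.erg h12 hwu hwi with h | h
      · exact h
      · exact absurd ⟨φ, hφ, hφi, h⟩ hex
    have h3 : κ[fun z : Ω × Ω => F z.1 * conj (φ z.2)|jo (J1 E) (J2 E)] =ᵐ[κ] 0 := by
      refine (ce_congr k4).trans ?_
      exact ce_mul_zero hc12 (k2.congr k4) (uf_int hwu) hw0
    have h4 : κ[fun z : Ω × Ω => F z.1 * conj (φ z.2)|J2 E] =ᵐ[κ] 0 :=
      ce_zero_lq hl2 h12.1 lq_jo_right k2 h3
    exact (ce_congr k1).trans ((ce_tower hl2 hlB hq2 k2).trans h4)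

theorem st_ROR (hRG1 : ST_RG1) (hRTH : ST_RTH) (hLZ : ST_LZ) (hDNS : ST_DNS) (hPFC : ST_PFC) :
    ST_ROR := by
  intro Ω m0 μ _ S S' s E p q κ hSt hs0 hct hsa hRs hR hRE hp hq hJ ψ ψ' F F' hψ hψ' hi hi' hn
    hF hF' hFE hFE'
  have hP : IsProbabilityMeasure κ := hJ.prob
  have hS := St.s1 hSt
  have hE : IA μ E S S' := hct.ia hS hs0
  have hl2 : Lm (J2 E) := lm_J2 hE.1
  rcases ror_one hRG1 hLZ hDNS hPFC hSt hE hR hRE hp hq hJ hψ hi hF hFE with h0 | h1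
  · rw [integral_congr_ae (g := fun _ => (0 : ℂ))]
    · simp
    · filter_upwards [h0] with z hz
      rw [hz]
      simp
  rcases ror_one hRG1 hLZ hDNS hPFC hSt hE hR hRE hp hq hJ hψ' hi' hF' hFE' with h0 | h1'
  · rw [integral_congr_ae (g := fun _ => (0 : ℂ))]
    · simp
    · filter_upwards [h0] with z hz
      rw [hz]
      simp
  obtain ⟨φ, hφ, hφi, hw, hg⟩ := h1
  obtain ⟨φ', hφ', hφi', hw', hg'⟩ := h1'
  have hφ2 : UF κ (fun z : Ω × Ω => φ z.2) := uf_J2 hJ hφ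
  have hφ2' : UF κ (fun z : Ω × Ω => φ' z.2) := uf_J2 hJ hφ'
  set θ : Ω → ℂ := fun x => φ x * conj (φ' x) with hθ
  have hθu : UF μ θ := hφ.mul hφ'.conj
  have hθn : ¬ AM μ E θ := by
    intro hAM
    apply hn
    have h3 : AM κ (jo (J1 E) (J2 E)) (fun z : Ω × Ω => θ z.2) :=
      am_jo_right ((am_J2 hPFC hJ hE.1 (F := θ) hθu.1.aestronglyMeasurable).2 hAM)
    refine (hRTH Ω μ S S' s E p q κ (fun x => ψ x * conj (ψ' x)) hSt hs0 hct hsa hRs hp hq hJ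
      (hψ.mul hψ'.conj) (Inc.mul hi (Inc.conj hi'))).1 ?_
    refine am_congr (am_mul (am_mul hw (am_conj hw')) h3) ?_
    filter_upwards [hφ2.mul_conj, hφ2'.mul_conj] with z hz hz'
    simp only [hθ, map_mul, Complex.conj_conj]
    linear_combination (ψ z.1 * conj (ψ' z.1)) * ((φ' z.2 * conj (φ' z.2)) * hz + hz')
  have hθ0 : μ[θ|E] =ᵐ[μ] 0 := by
    rcases hLZ Ω μ S S' E θ hS (St.e1 hSt) hE hθu (Inc.mul hφi (Inc.conj hφi')) with h | h
    · exact h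
    · exact absurd h hθn
  have hθi : Integrable θ μ := uf_int hθu
  have hθ2 : κ[fun z : Ω × Ω => θ z.2|J2 E] =ᵐ[κ] 0 := by
    refine (ce_J2 hPFC hJ hE.1 hθi).trans ?_
    exact (jy_mp2 hJ).quasiMeasurePreserving.ae hθ0
  have hθ2u : UF κ (fun z : Ω × Ω => θ z.2) := uf_J2 hJ hθu
  set g := κ[fun z => F z.1|B2 Ω] with hgdef
  set g' := κ[fun z => F' z.1|B2 Ω] with hgdef'
  have ha : AM κ (J2 E) (fun z => (g z * conj (φ z.2)) * conj (g' z * conj (φ' z.2))) :=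
    am_mul hg (am_conj hg')
  obtain ⟨hFm, B, hB⟩ := id hF
  obtain ⟨hFm', B', hB'⟩ := id hF'
  have hF1i : Integrable (fun z : Ω × Ω => F z.1) κ :=
    bf_int ⟨hFm.comp measurable_fst, B, fun z => hB z.1⟩
  have hF1i' : Integrable (fun z : Ω × Ω => F' z.1) κ :=
    bf_int ⟨hFm'.comp measurable_fst, B', fun z => hB' z.1⟩
  have hgb : ∀ᵐ z ∂κ, ‖g z‖ ≤ B := ce_bdd lm_B2 hF1i (Eventually.of_forall fun z => hB z.1)
  have hgb' : ∀ᵐ z ∂κ, ‖g' z‖ ≤ B' := ce_bdd lm_B2 hF1i' (Eventually.of_forall fun z => hB' z.1)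
  have hab : ∀ᵐ z ∂κ, ‖(g z * conj (φ z.2)) * conj (g' z * conj (φ' z.2))‖ ≤ B * B' := by
    filter_upwards [hgb, hgb', hφ2.2, hφ2'.2] with z h1 h2 h3 h4
    rw [norm_mul, norm_mul, Complex.norm_conj, Complex.norm_conj, h3, mul_one, norm_mul,
      Complex.norm_conj, h4, mul_one]
    exact mul_le_mul h1 h2 (norm_nonneg _) ((norm_nonneg _).trans h1)
  have hgm : AEStronglyMeasurable g κ := ce_int.aestronglyMeasurable
  have hgm' : AEStronglyMeasurable g' κ := ce_int.aestronglyMeasurable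
  have ham : AEStronglyMeasurable
      (fun z => (g z * conj (φ z.2)) * conj (g' z * conj (φ' z.2))) κ :=
    AEStronglyMeasurable.mono hl2 ha
  have hint : Integrable (fun z => (g z * conj (φ z.2)) * conj (g' z * conj (φ' z.2)) * θ z.2) κ :=
    int_bdd ham hab (uf_int hθ2u)
  have hz0 := int_zero_of_ce hl2 ha hint (uf_int hθ2u) hθ2
  rw [← hz0]
  refine integral_congr_ae ?_
  filter_upwards [hφ2.mul_conj, hφ2'.mul_conj] with z hz hz'
  simp only [hθ, map_mul, Complex.conj_conj]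
  linear_combination -(g z * conj (g' z)) * ((φ' z.2 * conj (φ' z.2)) * hz + hz')

end Pool.Agent.Helper99.TA
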