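import Pool.Agent.Helper98.TA.Basic
import Pool.Agent.Helper96.TWR.PFC

/-!
Rows RSW and RSB of the sheet TA: exchange of the coordinates, the trivial algebra.
-/

set_option linter.unusedSectionVars false

open MeasureTheory Filter Topology Finset
open scoped ComplexConjugate

namespace Pool.Agent.Helper99.TA

open Pool.Agent.Helper98.TW
open Pool.Agent.Helper98.TA
open Pool.Agent.Helper40.TWM (St)
open Pool.Agent.Helper98.GY (JY JJY)

theorem st_RSB : ST_RSB := by
  intro Ω m0 μ _ S p q κ hp hq hJ F hF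
  have h1 : (J1 (bo : SA Ω)) = (bo : SA (Ω × Ω)) := MeasurableSpace.comap_bot
  have h2 : (J2 (bo : SA Ω)) = (bo : SA (Ω × Ω)) := MeasurableSpace.comap_bot
  rw [h1, h2, jo_bo]

/-- composition with a measure preserving map -/
theorem am_cm_comp {X Y : Type} [MeasurableSpace X] [MeasurableSpace Y] {κ : Measure X}
    {ν : Measure Y} {π : X → Y} (hπ : MeasurePreserving π κ ν) {𝒜 : SA Y} {F : Y → ℂ}
    (h : AM ν 𝒜 F) : AM κ (cm π 𝒜) (fun x => F (π x)) := by
  obtain ⟨g, hg, hFg⟩ := am_iff.1 h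
  refine am_iff.2 ⟨fun x => g (π x), ?_, hπ.quasiMeasurePreserving.ae hFg⟩
  have h4 : Measurable[cm π 𝒜, 𝒜] π := comap_measurable _
  exact hg.comp h4

theorem cm_swap_jo {Ω : Type} (E E' : SA Ω) :
    cm (Prod.swap : Ω × Ω → Ω × Ω) (jo (J1 E) (J2 E')) = jo (J1 E') (J2 E) := by
  show MeasurableSpace.comap Prod.swap (MeasurableSpace.comap Prod.fst E ⊔
    MeasurableSpace.comap Prod.snd E') =
    (MeasurableSpace.comap Prod.fst E' ⊔ MeasurableSpace.comap Prod.snd E)
  rw [MeasurableSpace.comap_sup, MeasurableSpace.comap_comp, MeasurableSpace.comap_comp, sup_comm]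
  rfl

theorem st_RSW : ST_RSW := by
  intro Ω m0 μ _ S p q κ E hSm hE hJ
  have hP : IsProbabilityMeasure κ := hJ.prob
  have hsw : Measurable (Prod.swap : Ω × Ω → Ω × Ω) := measurable_swap
  have hmp : MeasurePreserving (Prod.swap : Ω × Ω → Ω × Ω) κ (κ.map Prod.swap) := ⟨hsw, rfl⟩
  have hmap : (κ.map Prod.swap).map Prod.swap = κ := by
    rw [Measure.map_map hsw hsw]
    have : (Prod.swap ∘ Prod.swap : Ω × Ω → Ω × Ω) = id := by
      funext z
      simp
    rw [this, Measure.map_id]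
  have hmp' : MeasurePreserving (Prod.swap : Ω × Ω → Ω × Ω) (κ.map Prod.swap) κ := ⟨hsw, hmap⟩
  have hP' : IsProbabilityMeasure (κ.map Prod.swap) :=
    Measure.isProbabilityMeasure_map hsw.aemeasurable
  have hJ' : JY S μ q p (κ.map Prod.swap) := by
    refine ⟨hP', ?_, ?_, ?_⟩
    · rw [Measure.map_map measurable_fst hsw]
      exact hJ.snd
    · rw [Measure.map_map measurable_snd hsw]
      exact hJ.fst
    · have he : MeasurePreserving (MeasurableEquiv.prodComm : Ω × Ω ≃ᵐ Ω × Ω) κ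
          (κ.map Prod.swap) := hmp
      have h1 := (he.ergodic_conjugate_iff (f := Prod.map S^[p] S^[q])).2 hJ.erg
      exact h1
  have hlm : Lm (jo (J1 E) (J2 E)) := lm_jo (lm_J1 hE) (lm_J2 hE)
  refine ⟨hJ', ?_, ?_⟩
  · intro hR hp hq F hF
    have hF1 : Integrable (fun z : Ω × Ω => F z.1) (κ.map Prod.swap) := by
      obtain ⟨hm, B, hB⟩ := hF
      exact Integrable.of_bound (hm.comp measurable_fst).aestronglyMeasurable B
        (Eventually.of_forall fun z => hB z.1)
    have h1 := (Pool.Agent.Helper96.TWR.st_PFC (Ω × Ω) (Ω × Ω) κ (κ.map Prod.swap) Prod.swap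
      (jo (J1 E) (J2 E)) hmp hlm).1 (fun z => F z.1) hF1
    have h2 := (Pool.Agent.Helper96.TWR.st_PFC (Ω × Ω) (Ω × Ω) κ (κ.map Prod.swap) Prod.swap
      (J1 E) hmp (lm_J1 hE)).1 (fun z => F z.1) hF1
    have h3 := hR q p (κ.map Prod.swap) hq hp hJ' F hF
    have h4 : ∀ᵐ z ∂κ, ((κ.map Prod.swap)[fun z => F z.1|jo (J1 E) (J2 E)]) z.swap =
        ((κ.map Prod.swap)[fun z => F z.1|J1 E]) z.swap := hmp.quasiMeasurePreserving.ae h3
    rw [cm_swap_jo] at h1
    have h5 : cm (Prod.swap : Ω × Ω → Ω × Ω) (J1 E) = J2 E := by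
      show MeasurableSpace.comap Prod.swap (MeasurableSpace.comap Prod.fst E) =
        MeasurableSpace.comap Prod.snd E
      rw [MeasurableSpace.comap_comp]
      rfl
    rw [h5] at h2
    filter_upwards [h1, h2, h4] with z e1 e2 e3
    exact e1.trans (e3.trans e2.symm)
  · intro F
    constructor
    · intro h
      have := am_cm_comp hmp h
      rwa [cm_swap_jo] at this
    · intro h
      have := am_cm_comp hmp' h
      rw [cm_swap_jo] at this
      simpa using this

end Pool.Agent.Helper99.TA
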