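import Pool.Agent.Helper98.TA.Basic
import Pool.Agent.Helper98.TA.Stmts2
import Pool.Agent.Helper73.TWR.Tool

/-!
Row RTH of the sheet TA: functions with increments in a saturated algebra.
-/

set_option linter.unusedSectionVars false

open MeasureTheory Filter Topology Finset
open scoped ComplexConjugate

namespace Pool.Agent.Helper99.TA

open Pool.Agent.Helper98.TW
open Pool.Agent.Helper98.TA
open Pool.Agent.Helper40.TWM (St)
open Pool.Agent.Helper98.GY (JY JJY)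
open Pool.Agent.Helper73.TWR (ce_am ce_int ce_bdd ce_of_am ce_congr bf_int uf_int uf_bdd exists_bf)

theorem rth_chain (hLT : ST_LT) (hPFC : ST_PFC)
    {Ω : Type} [m0 : MeasurableSpace Ω] {μ : Measure Ω} [IsProbabilityMeasure μ]
    {S S' : Ω → Ω} {s E : SA Ω} {p q : ℕ} {κ : Measure (Ω × Ω)} (hSt : St μ S S')
    (hs : IA μ s S S') (hE : IA μ E S S') (hJ : JY S μ p q κ) {E' : SA Ω} (hct : Ct μ S s E') :
    ∀ θ : Ω → ℂ, UF μ θ → Inc μ E S θ → AM κ (jo (J1 E) (J2 E')) (fun z => θ z.1) →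
      ∃ M : ℕ, 1 ≤ M ∧ AM κ (jo (J1 E) (J2 s)) (fun z => θ z.1 ^ M) := by
  have hP : IsProbabilityMeasure κ := hJ.prob
  have hS := St.s1 hSt
  have hsy := sys_jy hS hJ
  have h1 := ia_J1 hS hJ hE
  induction hct with
  | refl =>
    intro θ hθ hi h
    exact ⟨1, le_rfl, am_congr h (Eventually.of_forall fun z => (pow_one _).symm)⟩
  | step E' τ M hct' hτ hτi hM hτM ih =>
    intro θ hθ hi h
    have hE' : IA μ E' S S' := hct'.ia hS hs
    have h2 := ia_J2 hS hJ hE'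
    have h12 := Pool.Agent.Helper98.TA.ia_jo hsy h1 h2
    have hgrp := grp_comp (jy_mp2 hJ) (grp_Pw (μ := μ) (E := E') hτ)
    have hcm : J2 (ad μ E' τ) = jo (J2 E')
        (sg {ψ | ∃ φ ∈ Pw μ E' τ, ψ = fun z : Ω × Ω => φ z.2}) := cm_sg Prod.snd E' (Pw μ E' τ)
    rw [hcm, ← jo_assoc] at h
    have hinc1 : Inc κ (J1 E) (Prod.map S^[p] S^[q]) (fun z => θ z.1) :=
      inc_J1 hPFC hS hJ hE.1 hθ (inc_iter hE hS hθ hi p)
    obtain ⟨_, ⟨φ, hφ, rfl⟩, hφm⟩ := hLT (Ω × Ω) κ _ _ (jo (J1 E) (J2 E')) _ (fun z => θ z.1)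
      hsy hJ.erg h12 hgrp (by
        rintro _ ⟨φ, hφ, rfl⟩
        refine Inc.lq lq_jo_right ?_
        exact inc_J2 hPFC hS hJ hE'.1 hφ.1
          (inc_iter hE' hS hφ.1 (inc_Pw hE' hS hτ hτi φ hφ) q))
      (uf_J1 hJ hθ) h (Inc.lq lq_jo_left hinc1)
    have hφM : AM μ E' (fun x => φ x ^ M) := by
      obtain ⟨hφu, n, hn⟩ := hφ
      refine am_congr (am_mul (am_pow hn M) (am_zpow hτM n)) ?_
      filter_upwards [hτ.2] with x hx
      have h3 := zpow_conj_one hx n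
      have h4 : (τ x ^ M) ^ n = (τ x ^ n) ^ M := by
        rw [← zpow_natCast, ← zpow_natCast, ← zpow_mul, ← zpow_mul, mul_comm]
      rw [h4, ← mul_pow, mul_assoc, mul_comm (conj (τ x ^ n)), h3, mul_one]
    have hφM2 : AM κ (J2 E') (fun z => φ z.2 ^ M) :=
      (am_J2 hPFC hJ hE'.1 (F := fun x => φ x ^ M) (hφ.1.pow M).1.aestronglyMeasurable).2 hφM
    have hθM : AM κ (jo (J1 E) (J2 E')) (fun z => θ z.1 ^ M) := by
      refine am_congr (am_mul (am_pow hφm M) (am_jo_right hφM2)) ?_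
      filter_upwards [(uf_J2 hJ hφ.1).mul_conj] with z hz
      rw [← mul_pow]
      congr 1
      linear_combination (θ z.1) * hz
    obtain ⟨M', hM', hf⟩ := ih (fun x => θ x ^ M) (hθ.pow M) (Inc.pow hi M) hθM
    refine ⟨M * M', Nat.one_le_iff_ne_zero.2 (Nat.mul_ne_zero (by omega) (by omega)), ?_⟩
    exact am_congr hf (Eventually.of_forall fun z => (pow_mul _ _ _).symm)

theorem rth_one (hLT : ST_LT) (hPFC : ST_PFC) (hRCI : ST_RCI)
    {Ω : Type} [m0 : MeasurableSpace Ω] {μ : Measure Ω} [IsProbabilityMeasure μ]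
    {S S' : Ω → Ω} {s E : SA Ω} {p q : ℕ} {κ : Measure (Ω × Ω)} (hSt : St μ S S')
    (hs : IA μ s S S') (hct : Ct μ S s E) (hsa : Sa μ S E) (hR : Ri μ S s) (hp : 1 ≤ p)
    (hq : 1 ≤ q) (hJ : JY S μ p q κ) {θ : Ω → ℂ} (hθ : UF μ θ) (hi : Inc μ E S θ)
    (h : AM κ (jo (J1 E) (J2 E)) (fun z => θ z.1)) : AM μ E θ := by
  have hP : IsProbabilityMeasure κ := hJ.prob
  have hS := St.s1 hSt
  have hE : IA μ E S S' := hct.ia hS hs
  obtain ⟨M, hM, hf⟩ := rth_chain hLT hPFC hSt hs hE hJ hct θ hθ hi h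
  refine hsa θ hθ hi M hM ?_
  have hθM : UF μ (fun x => θ x ^ M) := hθ.pow M
  obtain ⟨F, hF, hFe⟩ := exists_bf hθM.1.aestronglyMeasurable (uf_bdd hθM)
  have hFe1 : (fun z : Ω × Ω => F z.1) =ᵐ[κ] fun z => θ z.1 ^ M :=
    (jy_mp1 hJ).quasiMeasurePreserving.ae hFe
  have h1 := hRCI Ω μ S S' s E p q κ hSt hs hE (lq_of_le hct.le) hR hp hq hJ F hF
  have hl : Lm (jo (J1 E) (J2 s)) := lm_jo (lm_J1 hE.1) (lm_J2 hs.1)
  have hFi : Integrable (fun z : Ω × Ω => F z.1) κ := by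
    obtain ⟨hm, B, hB⟩ := hF
    exact bf_int ⟨hm.comp measurable_fst, B, fun z => hB z.1⟩
  have h2 : κ[fun z : Ω × Ω => F z.1|jo (J1 E) (J2 s)] =ᵐ[κ] fun z => F z.1 :=
    ce_of_am hl hFi (am_congr hf hFe1.symm)
  have h3 : AM κ (J1 E) (fun z => F z.1) := by
    refine am_congr (ce_am (𝒜 := J1 E) (F := fun z : Ω × Ω => F z.1)) ?_
    exact h1.symm.trans h2
  exact am_congr ((am_J1 hPFC hJ hE.1 hF.1.aestronglyMeasurable).1 h3) hFe

theorem st_RTH (hRSW : ST_RSW) (hLT : ST_LT) (hPFC : ST_PFC) (hRCI : ST_RCI) : ST_RTH := by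
  intro Ω m0 μ _ S S' s E p q κ θ hSt hs hct hsa hR hp hq hJ hθ hi
  refine ⟨rth_one hLT hPFC hRCI hSt hs hct hsa hR hp hq hJ hθ hi, fun h => ?_⟩
  have hS := St.s1 hSt
  have hE : IA μ E S S' := hct.ia hS hs
  obtain ⟨hJ', -, h3⟩ := hRSW Ω μ S p q κ E hS.mp.measurable hE.1 hJ
  refine rth_one hLT hPFC hRCI hSt hs hct hsa hR hq hp hJ' hθ hi ?_
  exact (h3 (fun z => θ z.1)).2 h

end Pool.Agent.Helper99.TA
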