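import Pool.Agent.Helper98.TA.Basic
import Pool.Agent.Helper73.TWR.Tool

/-!
Row VCO of the sheet TA: the components of a function in the extension.
-/

set_option linter.unusedSectionVars false

open MeasureTheory Filter Topology Finset
open scoped ComplexConjugate

namespace Pool.Agent.Helper99.TA

open Pool.Agent.Helper98.TW
open Pool.Agent.Helper98.TA
open Pool.Agent.Helper40.TWM (St)
open Pool.Agent.Helper73.TWR (ce_am ce_int ce_bdd ce_bf ce_tower ce_congr ce_zero_lq ce_mul_zero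
  bf_int bf_mul uf_int uf_bdd int_bdd exists_bf pull)

theorem st_VCO (hBMT : ST_BMT) : ST_VCO := by
  intro Ω m0 μ _ S S' p D E E' h G hSt hD hE hE' hEE' hu hi hh hG hGE' hG0
  have hS := St.s1 hSt
  obtain ⟨hC'm, hC'iff, -⟩ := hBMT Ω μ S S' D E' hS hD.1 hE'.1
  obtain ⟨hCm, hCiff, -⟩ := hBMT Ω μ S S' D E hS hD.1 hE.1
  have hGi : Integrable G μ := bf_int hG
  have hconjm : AEStronglyMeasurable (fun x => conj (h x)) μ := (hu.conj).1.aestronglyMeasurable
  have hhG : Integrable (fun x => conj (h x) * G x) μ :=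
    int_bdd hconjm (uf_bdd hu.conj) hGi
  -- the bounded version
  obtain ⟨hGm, B, hB⟩ := id hG
  have hb1 : ∀ᵐ x ∂μ, ‖conj (h x) * G x‖ ≤ B := by
    filter_upwards [hu.2] with x hx
    rw [norm_mul, Complex.norm_conj, hx, one_mul]
    exact hB x
  have hb2 : ∀ᵐ x ∂μ, ‖h x * (μ[fun x => conj (h x) * G x|E]) x‖ ≤ B := by
    filter_upwards [hu.2, ce_bdd hE.1 hhG hb1] with x hx hx'
    rw [norm_mul, hx, one_mul]
    exact hx'
  have hmeas : AEStronglyMeasurable (fun x => h x * (μ[fun x => conj (h x) * G x|E]) x) μ :=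
    hu.1.aestronglyMeasurable.mul ce_int.aestronglyMeasurable
  obtain ⟨F, hF, hFe⟩ := exists_bf hmeas hb2
  have hFi : Integrable F μ := bf_int hF
  refine ⟨F, hF, hFe, ?_, ?_⟩
  · refine am_congr (ce_am (𝒜 := E) (F := fun x => conj (h x) * G x)) ?_
    filter_upwards [hFe, hu.conj_mul] with x hx hx'
    rw [hx]
    linear_combination -(μ[fun x => conj (h x) * G x|E]) x * hx'
  · intro ψ hψ _ hψE hψD
    -- `θ = conj ψ h` is `E`-measurable
    have hθ : AM μ E (fun x => conj (ψ x) * h x) := by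
      refine am_congr (am_conj hψE) (Eventually.of_forall fun x => ?_)
      simp only [map_mul, Complex.conj_conj]
      ring
    have hψG : Integrable (fun x => conj (ψ x) * G x) μ :=
      int_bdd hψ.conj.1.aestronglyMeasurable (uf_bdd hψ.conj) hGi
    have hθb : ∀ᵐ x ∂μ, ‖conj (ψ x) * h x‖ ≤ 1 := uf_bdd (hψ.conj.mul hu)
    have h1 : (fun x => conj (ψ x) * F x) =ᵐ[μ] μ[fun x => conj (ψ x) * G x|E] := by
      have h2 : μ[fun x => (conj (ψ x) * h x) * (conj (h x) * G x)|E] =ᵐ[μ]
          fun x => (conj (ψ x) * h x) * (μ[fun x => conj (h x) * G x|E]) x :=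
        pull hθ (int_bdd (hψ.conj.mul hu).1.aestronglyMeasurable hθb hhG) hhG
      have h3 : μ[fun x => (conj (ψ x) * h x) * (conj (h x) * G x)|E] =ᵐ[μ]
          μ[fun x => conj (ψ x) * G x|E] := by
        refine ce_congr ?_
        filter_upwards [hu.mul_conj] with x hx
        linear_combination (conj (ψ x) * G x) * hx
      filter_upwards [h2, h3, hFe] with x hx hx' hx''
      rw [hx'', ← hx', hx]
      ring
    -- `ψ` belongs to the larger intersection
    have hψE' : AM μ E' ψ := by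
      refine am_congr (am_mul hh (hEE' _ hψE)) ?_
      filter_upwards [hu.mul_conj] with x hx
      linear_combination (ψ x) * hx
    have hψC' : AM μ (mt μ D E') ψ := (hC'iff ψ).2 ⟨hψD, hψE'⟩
    have hCC' : LQ μ (mt μ D E) (mt μ D E') := by
      intro f hf
      have hf' := (hCiff f).1 hf
      exact (hC'iff f).2 ⟨hf'.1, hEE' _ hf'.2⟩
    have hCE : LQ μ (mt μ D E) E := fun f hf => ((hCiff f).1 hf).2
    have h4 : μ[fun x => conj (ψ x) * G x|mt μ D E'] =ᵐ[μ] 0 :=
      ce_mul_zero (am_conj hψC') hψG hGi hG0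
    have h5 : μ[fun x => conj (ψ x) * G x|mt μ D E] =ᵐ[μ] 0 :=
      ce_zero_lq hCm hC'm hCC' hψG h4
    have h6 : μ[fun x => conj (ψ x) * F x|mt μ D E] =ᵐ[μ]
        μ[μ[fun x => conj (ψ x) * G x|E]|mt μ D E] := ce_congr h1
    exact h6.trans ((ce_tower hCm hE.1 hCE hψG).trans h5)

end Pool.Agent.Helper99.TA
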